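import Pool.Agent.helper70.FI4.SpecK

/-!
# Row fk:KRB (MP_baa4d7_al): cancellation
-/

set_option autoImplicit false

namespace Pool.Agent.FI4

open Pool.Agent.helper58.DC Pool.Agent.DI Pool.Agent.GR Pool.Agent.OB Pool.Agent.DR Pool.Agent.FI Pool.Agent.FI3

theorem KRB_one {G : Type} [Group G] (N : Subgroup G) : Cz N 1 = N := by
  unfold Cz
  refine inf_eq_left.2 fun g _ => ?_
  rw [Subgroup.mem_centralizer_iff]
  intro h hh
  rw [Set.mem_singleton_iff.1 hh, one_mul, mul_one]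

theorem KRB_norm {G : Type} [Group G] (y : G) : Subgroup.centralizer {y} ≤ nz (Subgroup.zpowers y) := by
  intro g hg
  rw [Subgroup.mem_centralizer_iff] at hg
  have h1 : y * g = g * y := hg y rfl
  have h2 : ∀ k : ℤ, g * y ^ k * g⁻¹ = y ^ k := by
    intro k
    have h3 : Commute g (y ^ k) := (show Commute g y from h1.symm).zpow_right k
    rw [h3.eq, mul_inv_cancel_right]
  rw [Subgroup.mem_normalizer_iff]
  intro x
  constructor
  · rintro ⟨k, rfl⟩
    exact ⟨k, (h2 k).symm⟩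
  · rintro ⟨k, hk⟩
    refine ⟨k, ?_⟩
    have h3 : g * y ^ k * g⁻¹ = g * x * g⁻¹ := by
      rw [h2 k]
      exact hk
    exact mul_left_cancel (mul_right_cancel h3)

theorem KRB_zero (hQPR : QPR_stmt) (p : ℕ) [Fact p.Prime] (G : Type) [Group G] [Finite G] (y : G) (hy : PEl p y) (hy1 : y ≠ 1)
    (F : Subgroup G → ℂ) :
    ∑ᶠ C ∈ {C : Finset (Subgroup G) | PCh p ⊤ ⊥ C ∧ y ∈ nrm C}, (-1) ^ (C.card + 1) * F (Cz (nrm C) y) = 0 := by
  have hY : IsPGroup p (Subgroup.zpowers y) := by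
    obtain ⟨k, hk⟩ := hy
    rintro ⟨x, hx⟩
    refine ⟨k, ?_⟩
    obtain ⟨j, hj⟩ := hx
    apply Subtype.ext
    show x ^ p ^ k = 1
    have hj' : y ^ j = x := hj
    rw [← hj', ← zpow_natCast, ← zpow_mul, mul_comm, zpow_mul, zpow_natCast, hk, one_zpow]
  have h1 := hQPR G p (⊤ : Subgroup G) (Subgroup.zpowers y) (Subgroup.centralizer {y}) y F hY le_top
    (fun h => hy1 (Subgroup.zpowers_eq_bot.1 h))
    (by
      rw [Subgroup.zpowers_le, Subgroup.mem_centralizer_iff]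
      intro h hh
      rw [Set.mem_singleton_iff.1 hh])
    (Subgroup.le_normalizer (Subgroup.mem_zpowers y)) (KRB_norm y)
  rw [← h1]
  have e : {C : Finset (Subgroup G) | PCh p ⊤ ⊥ C ∧ y ∈ nrm C} =
      {C : Finset (Subgroup G) | PCh p ⊤ ⊥ C ∧ y ∈ nrm C ∧ Subgroup.zpowers y ≤ nrm C} := by
    ext C
    constructor
    · rintro ⟨a, b⟩
      exact ⟨a, b, Subgroup.zpowers_le.2 b⟩
    · rintro ⟨a, b, -⟩
      exact ⟨a, b⟩
  rw [e]
  refine finsum_mem_congr rfl fun C _ => ?_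
  unfold Cz
  rw [inf_comm]

theorem KRB (hKRA : KRA_stmt) (hQPR : QPR_stmt) : KRB_stmt := by
  classical
  intro p M hM G _ _ χ
  have : Fact p.Prime := ⟨hM.pr⟩
  have hSf : ({C : Finset (Subgroup G) | PCh p ⊤ ⊥ C}).Finite := Set.toFinite _
  have hPf : ({y : G | PEl p y}).Finite := Set.toFinite _
  apply Int.cast_injective (α := ℂ)
  unfold cSum
  simp only [top_inf_eq]
  rw [finsum_mem_eq_finite_toFinset_sum _ hSf, finsum_mem_eq_finite_toFinset_sum _ hSf]
  push_cast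
  have h1 : ∀ N : Subgroup G, (Nat.card N : ℂ) * ((Blk M χ N).ncard : ℂ) = ∑ y ∈ hPf.toFinset,
      if y ∈ N then (Nat.card (Cz N y) : ℂ) * (lb p M χ (Cz N y) : ℂ) else 0 := by
    intro N
    have hNf : ({y : G | y ∈ N ∧ PEl p y}).Finite := Set.toFinite _
    rw [hKRA p M hM G χ N, finsum_mem_eq_finite_toFinset_sum _ hNf, ← Finset.sum_filter]
    refine Finset.sum_congr ?_ fun _ _ => rfl
    ext y
    simp only [Set.Finite.mem_toFinset, Finset.mem_filter]
    exact and_comm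
  have h2 : ∀ C ∈ hSf.toFinset, (-1 : ℂ) ^ (C.card + 1) * ((Nat.card (nrm C) : ℂ) * ((Blk M χ (nrm C)).ncard : ℂ)) =
      ∑ y ∈ hPf.toFinset, (if y ∈ nrm C then (-1 : ℂ) ^ (C.card + 1) *
        ((Nat.card (Cz (nrm C) y) : ℂ) * (lb p M χ (Cz (nrm C) y) : ℂ)) else 0) := by
    intro C _
    rw [h1, Finset.mul_sum]
    refine Finset.sum_congr rfl fun y _ => ?_
    rw [mul_ite, mul_zero]
  rw [Finset.sum_congr rfl h2, Finset.sum_comm, Finset.sum_eq_single (1 : G)]
  · refine Finset.sum_congr rfl fun C _ => ?_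
    rw [if_pos (one_mem _), KRB_one]
  · intro y hy hy1
    have h3 := KRB_zero hQPR p G y (hPf.mem_toFinset.1 hy) hy1
      (fun N => (Nat.card N : ℂ) * (lb p M χ N : ℂ))
    have hCf : ({C : Finset (Subgroup G) | PCh p ⊤ ⊥ C ∧ y ∈ nrm C}).Finite := Set.toFinite _
    rw [finsum_mem_eq_finite_toFinset_sum _ hCf] at h3
    rw [← Finset.sum_filter, ← h3]
    refine Finset.sum_congr ?_ fun _ _ => rfl
    ext C
    simp only [Set.Finite.mem_toFinset, Finset.mem_filter]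
    exact Iff.rfl
  · intro h
    exact absurd (hPf.mem_toFinset.2 (show PEl p (1 : G) from ⟨0, one_pow _⟩)) h

end Pool.Agent.FI4
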