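import Pool.Agent.helper59.FI4.SpecI

/-!
# Row fi4:DCT (MP_baa4d7_al): a double coset
-/

set_option autoImplicit false

namespace Pool.Agent.FI4I

open Pool.Agent.helper58.DC Pool.Agent.DI Pool.Agent.GR Pool.Agent.OB Pool.Agent.DR Pool.Agent.FI Pool.Agent.FI3 Pool.Agent.FI4

theorem DCT_mul {G : Type} [Group G] (a b : G) (D : Subgroup G) : cjS a (cjS b D) = cjS (a * b) D := by
  ext x
  rw [mem_cjS, mem_cjS, mem_cjS]
  have e : b⁻¹ * (a⁻¹ * x * a) * b = (a * b)⁻¹ * x * (a * b) := by group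
  rw [e]

theorem DCT_nz {G : Type} [Group G] (m : G) (D : Subgroup G) : m ∈ nz D ↔ cjS m D = D := by
  rw [Subgroup.mem_normalizer_iff]
  constructor
  · intro h
    ext x
    rw [mem_cjS]
    have h1 := h (m⁻¹ * x * m)
    rw [show m * (m⁻¹ * x * m) * m⁻¹ = x by group] at h1
    exact h1
  · intro h x
    have h1 : m * x * m⁻¹ ∈ cjS m D ↔ m * x * m⁻¹ ∈ D := by rw [h]
    rw [mem_cjS, show m⁻¹ * (m * x * m⁻¹) * m = x by group] at h1
    exact h1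

theorem DCT_inj {G : Type} [Group G] (a b : G) (D : Subgroup G) : cjS a D = cjS b D ↔ a⁻¹ * b ∈ nz D := by
  rw [DCT_nz]
  constructor
  · intro h
    rw [← DCT_mul, ← h, DCT_mul, inv_mul_cancel]
    ext x
    rw [mem_cjS]
    simp
  · intro h
    have h1 := congrArg (cjS a) h
    rw [DCT_mul, mul_inv_cancel_left] at h1
    exact h1.symm

theorem DCT : DCT_stmt := by
  classical
  intro G _ _ D N g₀
  have hK : ∀ k, k ∈ nz (cjS g₀ D) ↔ g₀⁻¹ * k * g₀ ∈ nz D := by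
    intro k
    rw [DCT_nz, DCT_mul, eq_comm, DCT_inj, mul_assoc]
  set A : Set G := {g : G | ∃ n ∈ N, cjS n (cjS g₀ D) = cjS g D} with hA
  have hAm : ∀ g, g ∈ A ↔ ∃ n ∈ N, ∃ m ∈ nz D, g = n * g₀ * m := by
    intro g
    constructor
    · rintro ⟨n, hn, h⟩
      rw [DCT_mul, DCT_inj] at h
      exact ⟨n, hn, _, h, by group⟩
    · rintro ⟨n, hn, m, hm, rfl⟩
      refine ⟨n, hn, ?_⟩
      rw [DCT_mul, DCT_inj]
      have e : (n * g₀)⁻¹ * (n * g₀ * m) = m := by group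
      rw [e]
      exact hm
  let f : N × (nz D : Subgroup G) → A := fun x => ⟨x.1 * g₀ * x.2, (hAm _).2 ⟨x.1, x.1.2, x.2, x.2.2, rfl⟩⟩
  have fib : ∀ a : A, Nonempty ({x // f x = a} ≃ (N ⊓ nz (cjS g₀ D) : Subgroup G)) := by
    rintro ⟨g, hg⟩
    obtain ⟨n₀, hn₀, m₀, hm₀, e₀⟩ := (hAm g).1 hg
    refine ⟨⟨fun x => ⟨n₀⁻¹ * x.1.1, ?_⟩, fun k => ⟨(⟨n₀ * k, mul_mem hn₀ k.2.1⟩, ⟨g₀⁻¹ * (k : G)⁻¹ * g₀ * m₀, ?_⟩), ?_⟩, ?_, ?_⟩⟩
    · obtain ⟨⟨⟨n, hn⟩, ⟨m, hm⟩⟩, hx⟩ := x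
      have hx' : n * g₀ * m = g := congrArg Subtype.val hx
      refine Subgroup.mem_inf.2 ⟨mul_mem (inv_mem hn₀) hn, ?_⟩
      rw [hK]
      have e1 : g₀⁻¹ * (n₀⁻¹ * n) * g₀ = m₀ * m⁻¹ := by
        have e2 : n = n₀ * g₀ * m₀ * m⁻¹ * g₀⁻¹ := by
          rw [← e₀, ← hx']
          group
        rw [e2]
        group
      show g₀⁻¹ * (n₀⁻¹ * n) * g₀ ∈ nz D
      rw [e1]
      exact mul_mem hm₀ (inv_mem hm)
    · refine mul_mem ?_ hm₀
      have h1 := inv_mem ((hK _).1 k.2.2)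
      have e1 : (g₀⁻¹ * (k : G) * g₀)⁻¹ = g₀⁻¹ * (k : G)⁻¹ * g₀ := by group
      rw [e1] at h1
      exact h1
    · apply Subtype.ext
      show n₀ * (k : G) * g₀ * (g₀⁻¹ * (k : G)⁻¹ * g₀ * m₀) = g
      rw [e₀]
      group
    · rintro ⟨⟨⟨n, hn⟩, ⟨m, hm⟩⟩, hx⟩
      have hx' : n * g₀ * m = g := congrArg Subtype.val hx
      apply Subtype.ext
      refine Prod.ext (Subtype.ext ?_) (Subtype.ext ?_)
      · show n₀ * (n₀⁻¹ * n) = n
        group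
      · show g₀⁻¹ * (n₀⁻¹ * n)⁻¹ * g₀ * m₀ = m
        have e2 : m = (n * g₀)⁻¹ * (n₀ * g₀ * m₀) := by
          rw [← e₀, ← hx']
          group
        rw [e2]
        group
    · intro k
      apply Subtype.ext
      show n₀⁻¹ * (n₀ * (k : G)) = k
      group
  have h1 : Nat.card (N × (nz D : Subgroup G)) = Nat.card (A × (N ⊓ nz (cjS g₀ D) : Subgroup G)) :=
    Nat.card_congr ((Equiv.sigmaFiberEquiv f).symm.trans ((Equiv.sigmaCongrRight fun a => (fib a).some).trans (Equiv.sigmaEquivProd _ _)))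
  rw [Nat.card_prod, Nat.card_prod] at h1
  rw [h1, ← Nat.card_coe_set_eq]

end Pool.Agent.FI4I
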